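import Mathlib
import Pool.Agent.P8H6.DC.Stm

/-!
Package ESY of project DC (helper6), by helper80: elementary symmetric sums are small if there are many
pairs `i, i + 1` with `|w_i + w_(i+1)| ≤ 2 (1 - η)`. The proof is an induction over the pairs, using
`C(n, k) = C(n-2, k) + 2 C(n-2, k-1) + C(n-2, k-2)` and `C(n-2, k-1) ≥ (ρ/2)^2 C(n, k)`.
-/

set_option autoImplicit false

namespace Pool.Agent.P8H80.DC

open Finset

noncomputable def esy (w : ℕ → ℂ) (k : ℕ) (X : Finset ℕ) : ℂ := ∑ S ∈ powersetCard k X, ∏ j ∈ S, w j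

lemma esy_insert (w : ℕ → ℂ) (k : ℕ) (X : Finset ℕ) (i : ℕ) (hi : i ∉ X) :
    esy w (k + 1) (insert i X) = esy w (k + 1) X + w i * esy w k X := by
  unfold esy
  rw [Finset.powersetCard_succ_insert hi, Finset.sum_union, Finset.sum_image, Finset.mul_sum]
  · congr 1
    refine Finset.sum_congr rfl fun S hS => ?_
    rw [Finset.prod_insert]
    intro h
    exact hi ((Finset.mem_powersetCard.1 hS).1 h)
  · intro S hS T hT h
    have h1 : i ∉ S := fun h' => hi ((Finset.mem_powersetCard.1 hS).1 h')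
    have h2 : i ∉ T := fun h' => hi ((Finset.mem_powersetCard.1 hT).1 h')
    have h3 := congrArg (fun A : Finset ℕ => A.erase i) h
    simp only [Finset.erase_insert h1, Finset.erase_insert h2] at h3
    exact h3
  · rw [Finset.disjoint_left]
    intro S hS hS'
    obtain ⟨T, _, rfl⟩ := Finset.mem_image.1 hS'
    exact hi ((Finset.mem_powersetCard.1 hS).1 (Finset.mem_insert_self i T))

lemma esy_pair (w : ℕ → ℂ) (k : ℕ) (X : Finset ℕ) (i j : ℕ) (hj : j ∉ X) (hi : i ∉ insert j X) :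
    esy w (k + 2) (insert i (insert j X)) =
      esy w (k + 2) X + (w i + w j) * esy w (k + 1) X + w i * w j * esy w k X := by
  rw [esy_insert w (k + 1) _ i hi, esy_insert w (k + 1) X j hj, esy_insert w k X j hj]
  ring

lemma esy_trivial (w : ℕ → ℂ) (hw : ∀ j, ‖w j‖ ≤ 1) (k : ℕ) (X : Finset ℕ) :
    ‖esy w k X‖ ≤ (X.card.choose k : ℝ) := by
  unfold esy
  calc ‖∑ S ∈ powersetCard k X, ∏ j ∈ S, w j‖ ≤ ∑ S ∈ powersetCard k X, ‖∏ j ∈ S, w j‖ :=
        norm_sum_le _ _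
    _ ≤ ∑ S ∈ powersetCard k X, (1 : ℝ) := by
        refine Finset.sum_le_sum fun S _ => ?_
        rw [norm_prod]
        exact Finset.prod_le_one (fun j _ => norm_nonneg _) (fun j _ => hw j)
    _ = (X.card.choose k : ℝ) := by
        rw [Finset.sum_const, Finset.card_powersetCard, nsmul_eq_mul, mul_one]

lemma choose_two (N K : ℕ) :
    ((N + 2).choose (K + 2) : ℝ) = (N.choose (K + 2) : ℝ) + 2 * (N.choose (K + 1) : ℝ) + (N.choose K : ℝ) := by
  have h : (N + 2).choose (K + 2) = N.choose (K + 2) + 2 * N.choose (K + 1) + N.choose K := by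
    rw [Nat.choose_succ_succ' (N + 1) (K + 1), Nat.choose_succ_succ' N K, Nat.choose_succ_succ' N (K + 1)]
    ring
  rw [h]
  push_cast
  ring

lemma choose_mid (N K : ℕ) (hK : K ≤ N) :
    ((N : ℝ) + 2) * ((N : ℝ) + 1) * (N.choose (K + 1) : ℝ) =
      ((N + 2).choose (K + 2) : ℝ) * ((K : ℝ) + 2) * ((N : ℝ) - K) := by
  have h1 : (N + 1 + 1) * (N + 1).choose (K + 1) = (N + 1 + 1).choose (K + 1 + 1) * (K + 1 + 1) :=
    Nat.add_one_mul_choose_eq (N + 1) (K + 1)
  have h2 : N.choose (K + 1) * (N + 1) = (N + 1).choose (K + 1) * (N + 1 - (K + 1)) :=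
    Nat.choose_mul_succ_eq N (K + 1)
  have h3 : N + 1 - (K + 1) = N - K := by omega
  rw [h3] at h2
  have h1' : ((N : ℝ) + 2) * ((N + 1).choose (K + 1) : ℝ) = ((N + 2).choose (K + 2) : ℝ) * ((K : ℝ) + 2) := by
    have := congrArg (fun n : ℕ => (n : ℝ)) h1
    push_cast at this
    have e1 : (N : ℝ) + 1 + 1 = (N : ℝ) + 2 := by ring
    have e2 : (K : ℝ) + 1 + 1 = (K : ℝ) + 2 := by ring
    rw [e1, e2] at this
    exact this
  have h2' : (N.choose (K + 1) : ℝ) * ((N : ℝ) + 1) = ((N + 1).choose (K + 1) : ℝ) * ((N : ℝ) - K) := by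
    have := congrArg (fun n : ℕ => (n : ℝ)) h2
    push_cast [Nat.cast_sub hK] at this
    exact this
  calc ((N : ℝ) + 2) * ((N : ℝ) + 1) * (N.choose (K + 1) : ℝ)
      = ((N : ℝ) + 2) * ((N.choose (K + 1) : ℝ) * ((N : ℝ) + 1)) := by ring
    _ = (((N : ℝ) + 2) * ((N + 1).choose (K + 1) : ℝ)) * ((N : ℝ) - K) := by rw [h2']; ring
    _ = _ := by rw [h1']

lemma main_induction (w : ℕ → ℂ) (hw : ∀ j, ‖w j‖ ≤ 1) (η q a L : ℝ) (hη : 0 < η) (hη1 : η ≤ 1)
    (hq : 0 < q) (hq1 : 2 * η * q ≤ 1) (ha : 0 < a) (hL : 0 < L) (haL : a ^ 2 = q * L ^ 2) :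
    ∀ (j : ℕ) (J X : Finset ℕ), J.card = j → (∀ i ∈ J, i ∈ X ∧ i + 1 ∈ X) →
      (∀ i ∈ J, ∀ i' ∈ J, i < i' → i + 1 < i') → (∀ i ∈ J, ‖w i + w (i + 1)‖ ≤ 2 * (1 - η)) →
      (X.card : ℝ) ≤ L → ∀ k : ℕ, a + 2 * j ≤ k → (k : ℝ) + a + 2 * j ≤ (X.card : ℝ) →
      ‖esy w k X‖ ≤ (1 - 2 * η * q) ^ j * (X.card.choose k : ℝ) := by
  intro j
  induction j with
  | zero =>
    intro J X _ _ _ _ _ k _ _
    rw [pow_zero, one_mul]
    exact esy_trivial w hw k X
  | succ j ih =>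
    intro J X hJ hJX hsep hsm hXL k hk1 hk2
    obtain ⟨i, hi⟩ : J.Nonempty := by
      rw [← Finset.card_pos, hJ]; omega
    set X' : Finset ℕ := (X.erase i).erase (i + 1) with hX'
    have hiX := (hJX i hi).1
    have hi1X := (hJX i hi).2
    have hi1X' : i + 1 ∈ X.erase i := Finset.mem_erase.2 ⟨by omega, hi1X⟩
    have hXeq : insert i (insert (i + 1) X') = X := by
      rw [hX', Finset.insert_erase hi1X', Finset.insert_erase hiX]
    have hni1 : i + 1 ∉ X' := by rw [hX']; exact Finset.notMem_erase _ _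
    have hni : i ∉ insert (i + 1) X' := by
      rw [hX', Finset.insert_erase hi1X']
      exact Finset.notMem_erase _ _
    have hcard : X.card = X'.card + 2 := by
      rw [← hXeq, Finset.card_insert_of_notMem hni, Finset.card_insert_of_notMem hni1]
    have hJ' : (J.erase i).card = j := by
      rw [Finset.card_erase_of_mem hi, hJ]; rfl
    have hcardR : (X.card : ℝ) = (X'.card : ℝ) + 2 := by rw [hcard]; push_cast; ring
    push_cast at hk1 hk2
    have hjR : (0 : ℝ) ≤ (j : ℝ) := Nat.cast_nonneg j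
    have hk2' : 2 ≤ k := by
      have : (2 : ℝ) < (k : ℝ) := by nlinarith
      have : (2 : ℕ) < k := by exact_mod_cast this
      omega
    obtain ⟨K, rfl⟩ : ∃ K, k = K + 2 := ⟨k - 2, by omega⟩
    push_cast at hk1 hk2
    have IH : ∀ k' : ℕ, a + 2 * (j : ℝ) ≤ k' → (k' : ℝ) + a + 2 * (j : ℝ) ≤ (X'.card : ℝ) →
        ‖esy w k' X'‖ ≤ (1 - 2 * η * q) ^ j * (X'.card.choose k' : ℝ) := by
      intro k' h1 h2
      refine ih (J.erase i) X' hJ' ?_ ?_ ?_ ?_ k' h1 h2
      · intro i' hi'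
        obtain ⟨hne, hi'J⟩ := Finset.mem_erase.1 hi'
        have hm := hJX i' hi'J
        have hsep' : i' ≠ i + 1 ∧ i' + 1 ≠ i := by
          rcases Nat.lt_or_gt_of_ne hne with h | h
          · have := hsep i' hi'J i hi h
            omega
          · have := hsep i hi i' hi'J h
            omega
        refine ⟨?_, ?_⟩
        · rw [hX']
          exact Finset.mem_erase.2 ⟨hsep'.1, Finset.mem_erase.2 ⟨hne, hm.1⟩⟩
        · rw [hX']
          exact Finset.mem_erase.2 ⟨by omega, Finset.mem_erase.2 ⟨hsep'.2, hm.2⟩⟩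
      · intro i1 h1 i2 h2 h12
        exact hsep i1 (Finset.mem_erase.1 h1).2 i2 (Finset.mem_erase.1 h2).2 h12
      · intro i1 h1
        exact hsm i1 (Finset.mem_erase.1 h1).2
      · rw [hcardR] at hXL; linarith
    have hκ0 : 0 ≤ 1 - 2 * η * q := by linarith
    have hκj : 0 ≤ (1 - 2 * η * q) ^ j := pow_nonneg hκ0 j
    rw [hcardR] at hk2 hXL
    have I2 := IH (K + 2) (by push_cast; linarith) (by push_cast; linarith)
    have I1 := IH (K + 1) (by push_cast; linarith) (by push_cast; linarith)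
    have I0 := IH K (by linarith) (by linarith)
    rw [← hXeq, esy_pair w K X' i (i + 1) hni1 hni, hXeq, hcard]
    have hKN : K ≤ X'.card := by
      have : (K : ℝ) ≤ (X'.card : ℝ) := by linarith
      exact_mod_cast this
    set N : ℕ := X'.card with hN
    have hmid : q * ((N + 2).choose (K + 2) : ℝ) ≤ (N.choose (K + 1) : ℝ) := by
      have hc := choose_mid N K hKN
      have hc0 : (0 : ℝ) ≤ ((N + 2).choose (K + 2) : ℝ) := Nat.cast_nonneg _
      have hc1 : (0 : ℝ) ≤ (N.choose (K + 1) : ℝ) := Nat.cast_nonneg _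
      have hN0 : (0 : ℝ) ≤ (N : ℝ) := Nat.cast_nonneg _
      have hK0 : (0 : ℝ) ≤ (K : ℝ) := Nat.cast_nonneg _
      have h1 : ((N : ℝ) + 2) * ((N : ℝ) + 1) ≤ L ^ 2 := by nlinarith
      have h2 : a ^ 2 ≤ ((K : ℝ) + 2) * ((N : ℝ) - K) := by
        have ha1 : a ≤ (K : ℝ) + 2 := by linarith
        have ha2 : a ≤ (N : ℝ) - K := by linarith
        nlinarith
      have h3 : q * L ^ 2 * ((N + 2).choose (K + 2) : ℝ) ≤ L ^ 2 * (N.choose (K + 1) : ℝ) := by
        calc q * L ^ 2 * ((N + 2).choose (K + 2) : ℝ) = a ^ 2 * ((N + 2).choose (K + 2) : ℝ) := by rw [haL]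
          _ ≤ (((K : ℝ) + 2) * ((N : ℝ) - K)) * ((N + 2).choose (K + 2) : ℝ) :=
              mul_le_mul_of_nonneg_right h2 hc0
          _ = ((N : ℝ) + 2) * ((N : ℝ) + 1) * (N.choose (K + 1) : ℝ) := by rw [hc]; ring
          _ ≤ L ^ 2 * (N.choose (K + 1) : ℝ) := mul_le_mul_of_nonneg_right h1 hc1
      have hL2 : 0 < L ^ 2 := by positivity
      refine le_of_mul_le_mul_left ?_ hL2
      calc L ^ 2 * (q * ((N + 2).choose (K + 2) : ℝ)) = q * L ^ 2 * ((N + 2).choose (K + 2) : ℝ) := by ring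
        _ ≤ _ := h3
    have hc2 := choose_two N K
    set c0 : ℝ := (N.choose K : ℝ) with hc0def
    set c1 : ℝ := (N.choose (K + 1) : ℝ) with hc1def
    set c2 : ℝ := (N.choose (K + 2) : ℝ) with hc2def
    set C : ℝ := ((N + 2).choose (K + 2) : ℝ) with hCdef
    set P : ℝ := (1 - 2 * η * q) ^ j with hP
    have hc1nn : 0 ≤ c1 := Nat.cast_nonneg _
    have hs := hsm i hi
    have hww : ‖w i * w (i + 1)‖ ≤ 1 := by
      rw [norm_mul]
      calc ‖w i‖ * ‖w (i + 1)‖ ≤ 1 * 1 := mul_le_mul (hw i) (hw (i + 1)) (norm_nonneg _) zero_le_one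
        _ = 1 := one_mul 1
    have hη' : 0 ≤ 2 * (1 - η) := by linarith
    calc ‖esy w (K + 2) X' + (w i + w (i + 1)) * esy w (K + 1) X' + w i * w (i + 1) * esy w K X'‖
        ≤ ‖esy w (K + 2) X'‖ + ‖(w i + w (i + 1)) * esy w (K + 1) X'‖ + ‖w i * w (i + 1) * esy w K X'‖ :=
          norm_add₃_le
      _ = ‖esy w (K + 2) X'‖ + ‖w i + w (i + 1)‖ * ‖esy w (K + 1) X'‖ + ‖w i * w (i + 1)‖ * ‖esy w K X'‖ := by
          rw [norm_mul (w i + w (i + 1)), norm_mul (w i * w (i + 1))]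
      _ ≤ P * c2 + (2 * (1 - η)) * (P * c1) + 1 * (P * c0) :=
          add_le_add (add_le_add I2 (mul_le_mul hs I1 (norm_nonneg _) hη'))
            (mul_le_mul hww I0 (norm_nonneg _) zero_le_one)
      _ = P * (C - 2 * η * c1) := by rw [hc2]; ring
      _ ≤ P * (C - 2 * η * (q * C)) := by
          refine mul_le_mul_of_nonneg_left ?_ hκj
          have : 2 * η * (q * C) ≤ 2 * η * c1 := mul_le_mul_of_nonneg_left hmid (by linarith)
          linarith
      _ = (1 - 2 * η * q) ^ (j + 1) * C := by rw [hP, pow_succ]; ring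

theorem t_ESY : Pool.Agent.P8H6.DC.S_ESY := by
  intro ρ η ε hρ hρ2 hη hη1 hε
  set q : ℝ := (ρ / 2) ^ 2 with hq
  have hq0 : 0 < q := by positivity
  have hq1 : q ≤ 1 / 16 := by
    rw [hq]; nlinarith
  have h2 : 2 * η * q ≤ 1 := by nlinarith
  have h3 : 0 < 2 * η * q := by positivity
  obtain ⟨m, hm⟩ := exists_pow_lt_of_lt_one hε (show 1 - 2 * η * q < 1 by linarith)
  refine ⟨m, ⌈4 * (m : ℝ) / ρ⌉₊ + 1, ?_⟩
  intro L r hL hr1 hr2 w hw J hJ hJL hsep hsm
  obtain ⟨J', hJ'J, hJ'⟩ := Finset.exists_subset_card_eq hJ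
  have hL1 : 4 * (m : ℝ) / ρ ≤ (L : ℝ) := by
    have h4 : (⌈4 * (m : ℝ) / ρ⌉₊ : ℝ) + 1 ≤ (L : ℝ) := by exact_mod_cast hL
    have h5 := Nat.le_ceil (4 * (m : ℝ) / ρ)
    linarith
  have hL0 : 0 < (L : ℝ) := by
    have : 0 < L := by omega
    exact_mod_cast this
  have h4m : 4 * (m : ℝ) ≤ ρ * L := by
    rw [div_le_iff₀ hρ] at hL1
    linarith
  have key := main_induction w hw η q (ρ / 2 * L) L hη hη1 hq0 h2 (by positivity) hL0
    (by rw [hq]; ring) m J' (range L) hJ' ?_ ?_ ?_ ?_ r ?_ ?_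
  · rw [Finset.card_range] at key
    have hc0 : (0 : ℝ) ≤ (L.choose r : ℝ) := Nat.cast_nonneg _
    exact key.trans (mul_le_mul_of_nonneg_right hm.le hc0)
  · intro i hi
    have := hJL i (hJ'J hi)
    exact ⟨Finset.mem_range.2 (by omega), Finset.mem_range.2 this⟩
  · intro i hi i' hi' h
    exact hsep i (hJ'J hi) i' (hJ'J hi') h
  · intro i hi
    exact hsm i (hJ'J hi)
  · rw [Finset.card_range]
  · linarith
  · rw [Finset.card_range]
    linarith

end Pool.Agent.P8H80.DC
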